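import Pool.Agent.N975.SD.Sgn
import Pool.Agent.N963.JT.Fin
import Pool.Agent.N809.JT.Hj
import Pool.Agent.N916.PQ.Main15
import Pool.Agent.N916.PQ.Main21
import Pool.Agent.N809.P17.All
import Pool.Agent.N809.D21.Main

/-!
# The proportions of the minimal twists among the positive and among the negative integers
-/

set_option autoImplicit false
set_option linter.all false

namespace Pool.Agent.N975.SD

open Finset Filter
open Pool.Agent.N919.BS (NN NS NF HG Rt17)
open Pool.Agent.N855.GF (RR dl dl_pos)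
open Pool.Agent.N916.PQ (f15 f15_of_sg hg15)
open Pool.Agent.N916.PQ.L21 (limS limS' limT quo dl84)
open Pool.Agent.N916.MO (G17 hg17)
open Pool.Agent.N916.GB (eta)
open Pool.Agent.Y703.CQ (c2)
open Pool.Agent.N809.PQ (Sg15 Sg21)
open Pool.Agent.N975.JT (Cl Wd WF RR_card f17 f17_iff fJ fJ_fun clJ S17)
open Pool.Agent.N963.JT (R15 R17 r15_iff r17_iff)

/-- the weights modulo `60` -/
def wa (a : ℕ) : ℕ := (if a % 3 = 0 then 2 else 3) * (if a % 5 = 0 then 4 else 5)

theorem wa_key' : ∀ a ∈ range 60, a % 2 = 1 → a.gcd 60 ∣ 15 ∧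
    ((range (a.gcd 60)).filter fun j =>
      Nat.Coprime ((a / a.gcd 60) % (60 / a.gcd 60) + j * (60 / a.gcd 60)) 60).card * 15
        = wa a * a.gcd 60 := by
  decide +kernel

theorem wa_key (a : ℕ) (ha : a ∈ range 60) (h2 : a % 2 = 1) : a.gcd 60 ∣ 15 ∧
    (RR 60 a).card * 15 = wa a * a.gcd 60 := by
  rw [RR_card a (by norm_num)]
  exact wa_key' a ha h2

theorem sq15 : Squarefree 15 := by
  have h : (15 : ℕ) = 3 * 5 := by norm_num
  rw [h, Nat.squarefree_mul (by norm_num)]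
  exact ⟨(by norm_num : Nat.Prime 3).squarefree, (by norm_num : Nat.Prime 5).squarefree⟩

theorem wda : Wd 60 15 wa where
  pos := by norm_num
  four := by norm_num
  q0 := by norm_num
  key := fun a ha h2 => ⟨sq15.squarefree_of_dvd (wa_key a ha h2).1, (wa_key a ha h2).2⟩

theorem per15 : ∀ (s : ℤ) (k n : ℕ), (s = 1 ∨ s = -1) → (k = 1 ∨ k = 2) → n % 2 = 1 →
    f15 (s * (k * n : ℕ)) = f15 (s * (k * (n % 60) : ℕ)) := by
  intro s k n hs hk hn
  unfold Pool.Agent.N916.PQ.f15
  have e0 : (s * (k * n : ℕ) < 0) ↔ (s * (k * (n % 60) : ℕ) < 0) := by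
    rcases hs with rfl | rfl <;> rcases hk with rfl | rfl <;> push_cast <;> omega
  have e1 : (0 < s * (k * n : ℕ)) ↔ (0 < s * (k * (n % 60) : ℕ)) := by
    rcases hs with rfl | rfl <;> rcases hk with rfl | rfl <;> push_cast <;> omega
  have e3 : (s * (k * n : ℕ)) % 3 = (s * (k * (n % 60) : ℕ)) % 3 := by
    rcases hs with rfl | rfl <;> rcases hk with rfl | rfl <;> push_cast <;> omega
  have e5 : (s * (k * n : ℕ)) % 5 = (s * (k * (n % 60) : ℕ)) % 5 := by
    rcases hs with rfl | rfl <;> rcases hk with rfl | rfl <;> push_cast <;> omega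
  simp only [e0, e1, e3, e5]

theorem cl15 : Cl 60 15 wa f15 92 100 192 where
  wd := wda
  per := per15
  wA := by rintro k c (rfl | rfl) (rfl | rfl) <;> decide +kernel
  wB := by rintro k c (rfl | rfl) (rfl | rfl) <;> decide +kernel
  wT := by rintro c (rfl | rfl) <;> decide +kernel
  T0 := by norm_num

/-- the weights modulo `68` -/
def wb (a : ℕ) : ℕ := (if a % 17 = 0 then 16 else 17)

theorem wb_key' : ∀ a ∈ range 68, a % 2 = 1 → a.gcd 68 ∣ 17 ∧
    ((range (a.gcd 68)).filter fun j =>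
      Nat.Coprime ((a / a.gcd 68) % (68 / a.gcd 68) + j * (68 / a.gcd 68)) 68).card * 17
        = wb a * a.gcd 68 := by
  decide +kernel

theorem wb_key (a : ℕ) (ha : a ∈ range 68) (h2 : a % 2 = 1) : a.gcd 68 ∣ 17 ∧
    (RR 68 a).card * 17 = wb a * a.gcd 68 := by
  rw [RR_card a (by norm_num)]
  exact wb_key' a ha h2

theorem sq17 : Squarefree 17 := (by norm_num : Nat.Prime 17).squarefree

theorem wdb : Wd 68 17 wb where
  pos := by norm_num
  four := by norm_num
  q0 := by norm_num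
  key := fun a ha h2 => ⟨sq17.squarefree_of_dvd (wb_key a ha h2).1, (wb_key a ha h2).2⟩

theorem per17 : ∀ (s : ℤ) (k n : ℕ), (s = 1 ∨ s = -1) → (k = 1 ∨ k = 2) → n % 2 = 1 →
    f17 (s * (k * n : ℕ)) = f17 (s * (k * (n % 68) : ℕ)) := by
  intro s k n hs hk hn
  unfold f17
  have e0 : (s * (k * n : ℕ) < 0) ↔ (s * (k * (n % 68) : ℕ) < 0) := by
    rcases hs with rfl | rfl <;> rcases hk with rfl | rfl <;> push_cast <;> omega
  have e1 : (0 < s * (k * n : ℕ)) ↔ (0 < s * (k * (n % 68) : ℕ)) := by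
    rcases hs with rfl | rfl <;> rcases hk with rfl | rfl <;> push_cast <;> omega
  have e17 : (s * (k * n : ℕ)) % 17 = (s * (k * (n % 68) : ℕ)) % 17 := by
    rcases hs with rfl | rfl <;> rcases hk with rfl | rfl <;> push_cast <;> omega
  simp only [e0, e1, e17]

theorem cl17 : Cl 68 17 wb f17 136 152 288 where
  wd := wdb
  per := per17
  wA := by rintro k c (rfl | rfl) (rfl | rfl) <;> decide +kernel
  wB := by rintro k c (rfl | rfl) (rfl | rfl) <;> decide +kernel
  wT := by rintro c (rfl | rfl) <;> decide +kernel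
  T0 := by norm_num

/-- the proportions `p` among the positive and `n` among the negative squarefree integers
(discriminants) -/
def Sd (P : ℤ → Prop) (p n : ℝ) : Prop :=
  Tendsto (fun X : ℕ => (NS (fun d => 0 < d ∧ P d) X : ℝ) / (NS (fun d => 0 < d ∧ True) X : ℝ))
    atTop (nhds p) ∧
  Tendsto (fun X : ℕ => (NF (fun d => 0 < d ∧ P d) X : ℝ) / (NF (fun d => 0 < d ∧ True) X : ℝ))
    atTop (nhds p) ∧
  Tendsto (fun X : ℕ => (NS (fun d => d < 0 ∧ P d) X : ℝ) / (NS (fun d => d < 0 ∧ True) X : ℝ))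
    atTop (nhds n) ∧
  Tendsto (fun X : ℕ => (NF (fun d => d < 0 ∧ P d) X : ℝ) / (NF (fun d => d < 0 ∧ True) X : ℝ))
    atTop (nhds n)

theorem Sd.close {P Q : ℤ → Prop} {p n : ℝ} (h : Sd P p n)
    (hPQ : ∀ d, Squarefree d → d ≠ 1 → d ≠ -1 → (P d ↔ Q d)) : Sd Q p n := by
  obtain ⟨t1, t2, t3, t4⟩ := tops cl15
  obtain ⟨h1, h2, h3, h4⟩ := h
  exact ⟨Pool.Agent.N963.JT.NS_cl (fun d a b c => and_congr_right fun _ => hPQ d a b c) h1 t1,
    Pool.Agent.N963.JT.NF_cl (fun d a b c => and_congr_right fun _ => hPQ d a b c) h2 t2,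
    Pool.Agent.N963.JT.NS_cl (fun d a b c => and_congr_right fun _ => hPQ d a b c) h3 t3,
    Pool.Agent.N963.JT.NF_cl (fun d a b c => and_congr_right fun _ => hPQ d a b c) h4 t4⟩

theorem Sd.val {P : ℤ → Prop} {p n p' n' : ℝ} (h : Sd P p n) (e1 : p = p') (e2 : n = n') :
    Sd P p' n' := by
  rw [← e1, ← e2]
  exact h

/-- **the curve of conductor 15** -/
theorem sd15 : Sd R15 (23 / 48 * eta) (25 / 48 * eta) := by
  have h : Sd (fun d => f15 d = true ∧ Sg15 d) _ _ := sgn cl15 hg15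
  refine (h.val ?_ ?_).close ?_
  · norm_num
  · norm_num
  · intro d hs h1 h2
    rw [← r15_iff d hs h1 h2]
    exact ⟨fun h => h.2, fun h => ⟨f15_of_sg hs h, h⟩⟩

theorem hg17' : HG (fun d => f17 d = true) G17 c2 := by
  have e : (fun d => f17 d = true) = Rt17 := funext fun d => propext (f17_iff d)
  rw [e]
  exact hg17

/-- **the curve of conductor 17** -/
theorem sd17 : Sd R17 (17 / 36 * c2) (19 / 36 * c2) := by
  have h : Sd (fun d => f17 d = true ∧ G17 d) _ _ := sgn cl17 hg17'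
  refine (h.val ?_ ?_).close ?_
  · norm_num
  · norm_num
  · intro d hs _ _
    rw [r17_iff hs, f17_iff]
    exact Iff.rfl

/-- **both curves of conductors 15 and 17** -/
theorem sdJ : Sd (fun d => R15 d ∧ R17 d) (391 / 1728 * (eta * c2)) (475 / 1728 * (eta * c2)) := by
  have hJ : HG (fun d => fJ d = true) (fun d => Sg15 d ∧ G17 d) (eta * c2) := by
    rw [fJ_fun]
    exact Pool.Agent.N809.JT.hgJ
  have h : Sd (fun d => fJ d = true ∧ (Sg15 d ∧ G17 d)) _ _ := sgn clJ hJ
  refine (h.val ?_ ?_).close ?_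
  · norm_num
  · norm_num
  · intro d hs h1 h2
    rw [← r15_iff d hs h1 h2, r17_iff hs, Pool.Agent.N975.JT.fJ_iff]
    constructor
    · rintro ⟨⟨_, h4⟩, h5, h6⟩
      exact ⟨h5, h4, h6⟩
    · rintro ⟨h5, h4, h6⟩
      exact ⟨⟨f15_of_sg hs h5, h4⟩, h5, h6⟩

/-- minimal twists of the curve of conductor 21 -/
def R21 (d : ℤ) : Prop := Pool.Agent.N875.X15.Fin2 (Pool.Agent.N637.P21.WS d)

/-- **the curve of conductor 21** -/
theorem sd21 : Sd R21 (71 / 128 * eta) (33 / 64 * eta) := by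
  have a1 := lim_pos (P := Sg21) limS
  have a2 := lim_neg (P := Sg21) limS'
  have b1 := lim_pos (P := fun _ => True) (a := 128 / 7 * dl 84)
    fun k c hk hc => limT 1 k c (Or.inl rfl) hk hc
  have b2 := lim_neg (P := fun _ => True) (b := 128 / 7 * dl 84)
    fun k c hk hc => limT (-1) k c (Or.inr rfl) hk hc
  have h0 := dl84
  have h : Sd Sg21 (71 / 128 * eta) (33 / 64 * eta) := by
    refine ⟨quo a1.1 b1.1 ?_ ?_, quo a1.2 b1.2 ?_ ?_, quo a2.1 b2.1 ?_ ?_, quo a2.2 b2.2 ?_ ?_⟩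
    · positivity
    · field_simp
      ring
    · positivity
    · field_simp
      ring
    · positivity
    · field_simp
      ring
    · positivity
    · field_simp
      ring
  exact h.close fun d hs h1 _ => (Pool.Agent.N809.D21.fin2_iff hs h1).symm

end Pool.Agent.N975.SD
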