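import Pool.Agent.N975.JT.Rn21

/-!
# Densities among the positive and among the negative squarefree integers (discriminants)
-/

set_option autoImplicit false
set_option linter.all false

namespace Pool.Agent.N975.SD

open Finset Filter
open Pool.Agent.N919.BS (NN NS NF HG Rt17)
open Pool.Agent.N916.PQ.L21 (lim_NS lim_NF)
open Pool.Agent.N916.PQ.L21 (quo hg_lim)
open Pool.Agent.N975.JT (Cl lA lB lT)
open Pool.Agent.N855.GF (dl dl_pos)

theorem NN_congr' {P Q : ℤ → Prop} {s : ℤ} {k c : ℕ}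
    (h : ∀ n : ℕ, 0 < n → (P (s * (k * n : ℕ)) ↔ Q (s * (k * n : ℕ)))) (Y : ℕ) :
    NN P s k c Y = NN Q s k c Y := by
  classical
  unfold NN
  congr 1
  ext M
  simp only [mem_filter, mem_Icc]
  constructor
  · rintro ⟨⟨h1, h2⟩, h3, h4, h5⟩
    exact ⟨⟨h1, h2⟩, h3, h4, (h M h1).1 h5⟩
  · rintro ⟨⟨h1, h2⟩, h3, h4, h5⟩
    exact ⟨⟨h1, h2⟩, h3, h4, (h M h1).2 h5⟩

theorem NN_zero' {P : ℤ → Prop} {s : ℤ} {k c : ℕ}
    (h : ∀ n : ℕ, 0 < n → ¬ P (s * (k * n : ℕ))) (Y : ℕ) : NN P s k c Y = 0 := by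
  classical
  unfold NN
  rw [card_eq_zero]
  ext M
  simp only [mem_filter, mem_Icc, notMem_empty, iff_false]
  rintro ⟨⟨h1, h2⟩, h3, h4, h5⟩
  exact h M h1 h5

theorem pos1 {k n : ℕ} (hk : k = 1 ∨ k = 2) (hn : 0 < n) : 0 < (1 : ℤ) * (k * n : ℕ) := by
  rcases hk with rfl | rfl <;> push_cast <;> omega

theorem neg1 {k n : ℕ} (hk : k = 1 ∨ k = 2) (hn : 0 < n) : (-1 : ℤ) * (k * n : ℕ) < 0 := by
  rcases hk with rfl | rfl <;> push_cast <;> omega

section
variable {P : ℤ → Prop} {a b : ℝ}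

theorem lim_pos (h1 : ∀ k c, (k = 1 ∨ k = 2) → (c = 1 ∨ c = 3) →
      Tendsto (fun Y : ℕ => (NN P 1 k c Y : ℝ) / Y) atTop (nhds a)) :
    Tendsto (fun X : ℕ => (NS (fun d => 0 < d ∧ P d) X : ℝ) / X) atTop (nhds (3 * a)) ∧
    Tendsto (fun X : ℕ => (NF (fun d => 0 < d ∧ P d) X : ℝ) / X) atTop (nhds (3 / 2 * a)) := by
  have g1 : ∀ k c, (k = 1 ∨ k = 2) → (c = 1 ∨ c = 3) →
      Tendsto (fun Y : ℕ => (NN (fun d => 0 < d ∧ P d) 1 k c Y : ℝ) / Y) atTop (nhds a) := by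
    intro k c hk hc
    refine (h1 k c hk hc).congr fun Y => ?_
    rw [NN_congr' (P := fun d => 0 < d ∧ P d) (Q := P)
      (fun n hn => ⟨fun h => h.2, fun h => ⟨pos1 hk hn, h⟩⟩) Y]
  have g2 : ∀ k c, (k = 1 ∨ k = 2) → (c = 1 ∨ c = 3) →
      Tendsto (fun Y : ℕ => (NN (fun d => 0 < d ∧ P d) (-1) k c Y : ℝ) / Y) atTop (nhds 0) := by
    intro k c hk hc
    refine tendsto_const_nhds.congr fun Y => ?_
    rw [NN_zero' (P := fun d => 0 < d ∧ P d) (fun n hn h => by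
      have := neg1 hk hn
      exact absurd h.1 (by omega)) Y]
    simp
  have h3 := lim_NS g1 g2
  have h4 := lim_NF g1 g2
  rw [add_zero] at h3 h4
  exact ⟨h3, h4⟩

theorem lim_neg (h1 : ∀ k c, (k = 1 ∨ k = 2) → (c = 1 ∨ c = 3) →
      Tendsto (fun Y : ℕ => (NN P (-1) k c Y : ℝ) / Y) atTop (nhds b)) :
    Tendsto (fun X : ℕ => (NS (fun d => d < 0 ∧ P d) X : ℝ) / X) atTop (nhds (3 * b)) ∧
    Tendsto (fun X : ℕ => (NF (fun d => d < 0 ∧ P d) X : ℝ) / X) atTop (nhds (3 / 2 * b)) := by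
  have g1 : ∀ k c, (k = 1 ∨ k = 2) → (c = 1 ∨ c = 3) →
      Tendsto (fun Y : ℕ => (NN (fun d => d < 0 ∧ P d) (-1) k c Y : ℝ) / Y) atTop (nhds b) := by
    intro k c hk hc
    refine (h1 k c hk hc).congr fun Y => ?_
    rw [NN_congr' (P := fun d => d < 0 ∧ P d) (Q := P)
      (fun n hn => ⟨fun h => h.2, fun h => ⟨neg1 hk hn, h⟩⟩) Y]
  have g2 : ∀ k c, (k = 1 ∨ k = 2) → (c = 1 ∨ c = 3) →
      Tendsto (fun Y : ℕ => (NN (fun d => d < 0 ∧ P d) 1 k c Y : ℝ) / Y) atTop (nhds 0) := by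
    intro k c hk hc
    refine tendsto_const_nhds.congr fun Y => ?_
    rw [NN_zero' (P := fun d => d < 0 ∧ P d) (fun n hn h => by
      have := pos1 hk hn
      exact absurd h.1 (by omega)) Y]
    simp
  have h3 := lim_NS g2 g1
  have h4 := lim_NF g2 g1
  rw [zero_add] at h3 h4
  exact ⟨h3, h4⟩

end

section
variable {M q : ℕ} {wn : ℕ → ℕ} {f : ℤ → Bool} {A B T : ℤ} {G : ℤ → Prop} {η : ℝ}

/-- a criterion of relative density `η` in the class `f`, positive integers -/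
theorem crit_pos (H : Cl M q wn f A B T) (hG : HG (fun d => f d = true) G η) :
    Tendsto (fun X : ℕ => (NS (fun d => 0 < d ∧ (f d = true ∧ G d)) X : ℝ) / X) atTop
      (nhds (3 * (η * ((A : ℝ) / q * dl M)))) ∧
    Tendsto (fun X : ℕ => (NF (fun d => 0 < d ∧ (f d = true ∧ G d)) X : ℝ) / X) atTop
      (nhds (3 / 2 * (η * ((A : ℝ) / q * dl M)))) :=
  lim_pos fun k c hk hc => hg_lim (c := 0) hG (Or.inl rfl) hk hc (lA H k c hk hc)

theorem crit_neg (H : Cl M q wn f A B T) (hG : HG (fun d => f d = true) G η) :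
    Tendsto (fun X : ℕ => (NS (fun d => d < 0 ∧ (f d = true ∧ G d)) X : ℝ) / X) atTop
      (nhds (3 * (η * ((B : ℝ) / q * dl M)))) ∧
    Tendsto (fun X : ℕ => (NF (fun d => d < 0 ∧ (f d = true ∧ G d)) X : ℝ) / X) atTop
      (nhds (3 / 2 * (η * ((B : ℝ) / q * dl M)))) :=
  lim_neg fun k c hk hc => hg_lim (c := 0) hG (Or.inr rfl) hk hc (lB H k c hk hc)

theorem all_pos (H : Cl M q wn f A B T) :
    Tendsto (fun X : ℕ => (NS (fun d => 0 < d ∧ True) X : ℝ) / X) atTop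
      (nhds (3 * ((T : ℝ) / q * dl M))) ∧
    Tendsto (fun X : ℕ => (NF (fun d => 0 < d ∧ True) X : ℝ) / X) atTop
      (nhds (3 / 2 * ((T : ℝ) / q * dl M))) :=
  lim_pos (P := fun _ => True) fun k c _ hc => lT H 1 k c hc

theorem all_neg (H : Cl M q wn f A B T) :
    Tendsto (fun X : ℕ => (NS (fun d => d < 0 ∧ True) X : ℝ) / X) atTop
      (nhds (3 * ((T : ℝ) / q * dl M))) ∧
    Tendsto (fun X : ℕ => (NF (fun d => d < 0 ∧ True) X : ℝ) / X) atTop
      (nhds (3 / 2 * ((T : ℝ) / q * dl M))) :=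
  lim_neg (P := fun _ => True) fun k c _ hc => lT H (-1) k c hc

theorem pp (H : Cl M q wn f A B T) : (0 : ℝ) < dl M ∧ (0 : ℝ) < q ∧ (0 : ℝ) < T := by
  exact ⟨dl_pos H.wd.pos, by exact_mod_cast H.wd.q0, by exact_mod_cast H.T0⟩

/-- **the proportions among the positive integers, the negative integers, the positive
discriminants, the negative discriminants** -/
theorem sgn (H : Cl M q wn f A B T) (hG : HG (fun d => f d = true) G η) :
    Tendsto (fun X : ℕ => (NS (fun d => 0 < d ∧ (f d = true ∧ G d)) X : ℝ) /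
      (NS (fun d => 0 < d ∧ True) X : ℝ)) atTop (nhds ((A : ℝ) / T * η)) ∧
    Tendsto (fun X : ℕ => (NF (fun d => 0 < d ∧ (f d = true ∧ G d)) X : ℝ) /
      (NF (fun d => 0 < d ∧ True) X : ℝ)) atTop (nhds ((A : ℝ) / T * η)) ∧
    Tendsto (fun X : ℕ => (NS (fun d => d < 0 ∧ (f d = true ∧ G d)) X : ℝ) /
      (NS (fun d => d < 0 ∧ True) X : ℝ)) atTop (nhds ((B : ℝ) / T * η)) ∧
    Tendsto (fun X : ℕ => (NF (fun d => d < 0 ∧ (f d = true ∧ G d)) X : ℝ) /
      (NF (fun d => d < 0 ∧ True) X : ℝ)) atTop (nhds ((B : ℝ) / T * η)) := by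
  obtain ⟨h1, h2, h3⟩ := pp H
  refine ⟨quo (crit_pos H hG).1 (all_pos H).1 ?_ ?_, quo (crit_pos H hG).2 (all_pos H).2 ?_ ?_,
    quo (crit_neg H hG).1 (all_neg H).1 ?_ ?_, quo (crit_neg H hG).2 (all_neg H).2 ?_ ?_⟩
  all_goals first
    | positivity
    | (field_simp)

/-- the numbers of all positive and negative integers and discriminants tend to infinity -/
theorem tops (H : Cl M q wn f A B T) :
    Tendsto (fun X => (NS (fun d => 0 < d ∧ True) X : ℝ)) atTop atTop ∧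
    Tendsto (fun X => (NF (fun d => 0 < d ∧ True) X : ℝ)) atTop atTop ∧
    Tendsto (fun X => (NS (fun d => d < 0 ∧ True) X : ℝ)) atTop atTop ∧
    Tendsto (fun X => (NF (fun d => d < 0 ∧ True) X : ℝ)) atTop atTop := by
  obtain ⟨h1, h2, h3⟩ := pp H
  have key : ∀ (N : ℕ → ℕ) (c : ℝ), 0 < c → Tendsto (fun X : ℕ => (N X : ℝ) / X) atTop (nhds c) →
      Tendsto (fun X => (N X : ℝ)) atTop atTop := by
    intro N c hc h
    have h4 := Filter.Tendsto.pos_mul_atTop hc h (tendsto_natCast_atTop_atTop (R := ℝ))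
    refine h4.congr' ?_
    filter_upwards [eventually_ge_atTop 1] with X hX
    have : (X : ℝ) ≠ 0 := by
      have : 0 < X := hX
      positivity
    rw [div_mul_cancel₀ _ this]
  exact ⟨key _ _ (by positivity) (all_pos H).1, key _ _ (by positivity) (all_pos H).2,
    key _ _ (by positivity) (all_neg H).1, key _ _ (by positivity) (all_neg H).2⟩

end

end Pool.Agent.N975.SD
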